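import Pool.Agent.HP778.QS.Field

/-! # MP_2429c0_al: fields in which almost all norm groups have index at most four

Let `F` be a field of characteristic `≠ 2` with finitely many square classes and let `N(a)` be the
group of the nonzero values of `x² - a y²`. If `N(a)` has index at most four in `F*` for more than
`63/64` of all square classes, then the quaternionic structure of `F` is of elementary type. More
generally, let `W` be a subgroup of `F*` of index at most four which contains the squares, and call
`a ∈ W` exceptional if `a` is outside the core of `F` and `N(a) ∩ W` has index greater than four in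
`F*`. If the number of exceptional square classes is less than `1/64` (less than `1/16` if `W ≠ F*`)
of the number of all square classes, the same conclusion holds. -/

set_option autoImplicit false

namespace Pool.Agent.Results.MP_2429c0_al.AlmostAllNormGroups

open Pool.Agent.H315R3.ETC Pool.Agent.TH188.ET Pool.Agent.TH673.VG

/-- the group of squares of `F*` -/
def squares (F : Type*) [Field F] : Subgroup Fˣ := (powMonoidHom 2 : Fˣ →* Fˣ).range

/-- the square classes of the exceptional elements of `W`: those `a ∈ W` outside the core for which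
`N(a) ∩ W` has index greater than four in `F*` -/
def Exceptional {F : Type*} [Field F] (W : Subgroup Fˣ) : Set (Fˣ ⧸ squares F) :=
  {x | ∃ a : Fˣ, (a : Fˣ ⧸ squares F) = x ∧ a ∈ W ∧ a ∉ fieldCore F ∧
    4 < (normGroup a ⊓ W).index}

/-- the pairs `(x,y)` of square classes, `x` outside `W`, `y` in `W`, such that the quaternion
algebra `(x,y)` is split -/
def SplitPairs {F : Type*} [Field F] (W : Subgroup Fˣ) :
    Set ((Fˣ ⧸ squares F) × (Fˣ ⧸ squares F)) :=
  {p | ∃ a b : Fˣ, a ∉ W ∧ b ∈ W ∧ b ∈ normGroup a ∧
    p = ((a : Fˣ ⧸ squares F), (b : Fˣ ⧸ squares F))}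

theorem result {F : Type*} [Field F] (h2 : (2 : F) ≠ 0) (hfin : FinSq F) :
    -- more than `63/64` of all norm groups have index at most four
    (64 * {x : Fˣ ⧸ squares F | ∃ a : Fˣ, (a : Fˣ ⧸ squares F) = x ∧
        4 < (normGroup a).index}.ncard < (squares F).index →
      ∃ S : QData, Elem S ∧ IsStructureOf F S) ∧
    -- few exceptional square classes in a subgroup of index at most four
    (∀ W : Subgroup Fˣ, squares F ≤ W → W.index ≤ 4 →
      64 * (Exceptional W).ncard < (squares F).index →
      ∃ S : QData, Elem S ∧ IsStructureOf F S) ∧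
    -- few exceptional square classes in a proper subgroup of index at most four
    (∀ W : Subgroup Fˣ, squares F ≤ W → W.index ≤ 4 → W ≠ ⊤ →
      16 * (Exceptional W).ncard < (squares F).index →
      ∃ S : QData, Elem S ∧ IsStructureOf F S) ∧
    -- `N(a)` has index at most four for `a ∈ W` outside the core, and `(x,y)` is split for few
    -- pairs of square classes, `x` outside `W` and `y` in `W`
    (∀ W : Subgroup Fˣ, squares F ≤ W → W.index ≤ 4 →
      (∀ a ∈ W, a ∉ fieldCore F → (normGroup a).index ≤ 4) →
      128 * (SplitPairs W).ncard < (squares F).index ^ 2 →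
      ∃ S : QData, Elem S ∧ IsStructureOf F S) ∧
    -- each norm group has at most `k` classes modulo squares or index at most four, more than `8 k`
    -- square classes have a norm group of index at most four, and there are more than `128 k`
    -- square classes
    (∀ k : ℕ, 0 < k → 128 * k < (squares F).index →
      (∀ a : Fˣ, (squares F).relIndex (normGroup a) ≤ k ∨ (normGroup a).index ≤ 4) →
      8 * k < {x : Fˣ ⧸ squares F | ∃ a : Fˣ, (a : Fˣ ⧸ squares F) = x ∧
        (normGroup a).index ≤ 4}.ncard →
      ∃ S : QData, Elem S ∧ IsStructureOf F S) := by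
  refine ⟨fun hB => ?_, fun W hs hW hB =>
    Pool.Agent.HP778.QS.field_of_almost h2 hfin W hs hW hB, fun W hs hW hWt hB =>
    Pool.Agent.HP778.QS.field_of_almost_sub h2 hfin W hs hW hWt hB, fun W hs hW h1 hP =>
    Pool.Agent.HP778.QS.field_of_pairs h2 hfin W hs hW h1 hP, fun k hk hG hd hR =>
    Pool.Agent.HP778.QS.field_of_dichotomy h2 hfin k hk hG hd hR⟩
  have hq : Finite (Fˣ ⧸ squares F) := hfin
  have hq' : Finite (Fˣ ⧸ Pool.Agent.HP778.QS.squares F) := hfin
  refine Pool.Agent.HP778.QS.field_of_almost h2 hfin ⊤ le_top
    (by rw [Subgroup.index_top]; norm_num) ?_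
  refine lt_of_le_of_lt (Nat.mul_le_mul_left _ (Set.ncard_le_ncard ?_ (Set.toFinite _))) hB
  rintro x ⟨a, rfl, -, -, h3⟩
  rw [inf_top_eq] at h3
  exact ⟨a, rfl, h3⟩

end Pool.Agent.Results.MP_2429c0_al.AlmostAllNormGroups
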