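import Mathlib
import Pool.Agent.R675.ETC4.Field4
import Pool.Agent.Y620.ET.Res

set_option autoImplicit false

/-! # MP_2429c0_al: the weak elementary type conjecture for fields whose norm groups have at most
four classes

Let `F` be a field of characteristic `≠ 2` with finitely many square classes such that for all
`a ∉ F*²` the group of the nonzero values of `x² - a y²` has at most four classes modulo `F*²`. Then
the quaternionic structure of `F` is of elementary type. It is an iterated group extension of a
structure with at most eight elements. If `F` has more than sixteen square classes, then `F` carries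
a valuation whose one-units are squares, and `F` and its residue field, which has at most sixteen
square classes and the same property, are related by iterated group extension. -/

namespace Pool.Agent.Results.MP_2429c0_al.FourClassNormGroups

open Pool.Agent.H315R3.ETC Pool.Agent.TH188.ET Pool.Agent.Y920.ETC Pool.Agent.R675.ETC4

/-- the group of squares of `F*` -/
def squares (F : Type) [Field F] : Subgroup Fˣ := (powMonoidHom 2 : Fˣ →* Fˣ).range

/-- the group of the nonzero values of `x² - a y²`: the norm group of `F(√a)` if `a` is not a
square -/
def normGroup {F : Type} [Field F] (a : Fˣ) : Subgroup Fˣ where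
  carrier := {c | ∃ x y : F, (c : F) = x ^ 2 - a * y ^ 2}
  one_mem' := (nG a).one_mem
  mul_mem' := (nG a).mul_mem
  inv_mem' := (nG a).inv_mem

/-- the characteristic is not two, `F*/F*²` is finite, and all norm groups of quadratic extensions
have at most `4` classes modulo squares -/
def FourClasses (F : Type) [Field F] : Prop :=
  (2 : F) ≠ 0 ∧ (squares F).index ≠ 0 ∧
    ∀ a : Fˣ, a ∉ squares F → (squares F).relIndex (normGroup a) ≤ 4

/-- the quaternionic structure of `F` is of elementary type -/
def ElementaryType (F : Type) [Field F] : Prop := ∃ S : QData, Elem S ∧ IsStructureOf F S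

theorem result (F : Type) [Field F] (hF : FourClasses F) :
    -- the weak elementary type conjecture
    ElementaryType F ∧
    -- the structure of the field is an iterated group extension of a structure with at most eight
    -- elements
    (∃ (T : QData) (k : ℕ), Elem T ∧ IsQuat T ∧ Nat.card T.G ≤ 8 ∧
      2 ^ k * Nat.card T.G = (squares F).index ∧ IsStructureOf F (ext^[k] T)) ∧
    -- if there are more than sixteen square classes there is a valuation
    (16 < (squares F).index →
      ∃ O : ValuationSubring F,
        (∀ x : F, x ∈ O → x⁻¹ ∉ O → IsSquare (1 + x)) ∧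
        FourClasses (IsLocalRing.ResidueField O) ∧
        ElementaryType (IsLocalRing.ResidueField O) ∧
        (squares (IsLocalRing.ResidueField O)).index ≤ 16 ∧
        ∃ (T : QData) (k : ℕ), 1 ≤ k ∧
          2 ^ k * (squares (IsLocalRing.ResidueField O)).index = (squares F).index ∧
          IsStructureOf (IsLocalRing.ResidueField O) T ∧ IsStructureOf F (ext^[k] T)) := by
  have elem : ∀ (F : Type) [Field F], FourClasses F → ElementaryType F := by
    intro F _ hF
    obtain ⟨h2, hfin, hsmall⟩ := hF
    obtain ⟨S, hS, hSf, hSq, hv⟩ := structure_four h2 hfin hsmall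
    exact ⟨S, elem_four hSq hSf hv, hS⟩
  refine ⟨elem F hF, ?_, ?_⟩
  · obtain ⟨h2, hfin, hsmall⟩ := hF
    obtain ⟨S, hS, hSf, hSq, hv⟩ := structure_four h2 hfin hsmall
    obtain ⟨T, k, hT, hTf, hTc, hTk, -, hTi⟩ := iter4 _ S hSq hSf le_rfl hv
    have hS' := hS
    obtain ⟨φ, hs, hk, -, h0, -⟩ := hS
    refine ⟨T, k, elem_sixteen T hT (by omega), hT, hTc, ?_, ?_⟩
    · rw [hTk]
      exact card_eq hs hk
    · refine structure_iso hS' (iso_symm hTi) ?_
      have : ∀ (k : ℕ) (T : QData), T.q 1 1 = T.zero →
          (ext^[k] T).q 1 1 = (ext^[k] T).zero := by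
        intro k T hT
        induction k with
        | zero => exact hT
        | succ k ih =>
          rw [Function.iterate_succ_apply']
          show (((ext^[k] T).q 1 1, pw (pw (ext^[k] T).neg 1) 1 * pw 1 1 * pw 1 1) :
            (ext^[k] T).Q × (ext^[k] T).G) = ((ext^[k] T).zero, 1)
          rw [ih]
          simp [pw]
      exact this k T (q_one hT 1)
  · intro hlarge
    obtain ⟨h2, hfin, hsmall⟩ := hF
    obtain ⟨O, hO, hOc, k, T, hk1, hk, hT, hTF⟩ := reduce4 Pool.Agent.Y620.ET.t_RES h2 hfin
      hsmall hlarge
    have hκ : FourClasses (IsLocalRing.ResidueField O) := ⟨hO.two, hO.fin, hO.small⟩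
    exact ⟨O, hO.sqr.2.2, hκ, elem _ hκ, hOc, T, k, hk1, hk, hT, hTF⟩

end Pool.Agent.Results.MP_2429c0_al.FourClassNormGroups
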