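import Pool.Agent.R19.QS.Eight
import Pool.Agent.TH673.VG.FieldInd

/-! # MP_2429c0_al: elementary type and the elements with norm groups of index more than four

Let `F` be a field of characteristic `≠ 2` with finitely many square classes, let `N(a)` be the
group of the nonzero values of `x² - a y²`, let `C` be the core of `F`, let `F₄` be the subgroup of
`F*` generated by `C` and all `b` with `N(b)` of index at most four, and let `E` be the set of all
`a ∉ C` with `N(a)` of index more than four.

Theorem.  If each `a ∈ E` with `E ⊄ N(a)C` satisfies `|F* : N(a)| ≤ 8` and `a ∈ F₄`, then the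
quaternionic structure of `F` is of elementary type.  This is so if `|F* : N(a)| ≤ 8` for all
`a ∉ C` and `F₄ = F*`, and also if `E ⊆ N(a)C` for all `a ∈ E`. -/

set_option autoImplicit false

namespace Pool.Agent.Results.MP_2429c0_al.IndexEight

open Pool.Agent.H315R3.ETC Pool.Agent.TH188.ET Pool.Agent.TH673.VG

/-- the subgroup generated by the core and the elements with norm groups of index at most four -/
def F4 (F : Type*) [Field F] : Subgroup Fˣ :=
  Subgroup.closure ({b : Fˣ | (normGroup b).index ≤ 4} ∪ (fieldCore F : Set Fˣ))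

/-- the elements outside the core with norm groups of index more than four -/
def E (F : Type*) [Field F] : Set Fˣ :=
  {a : Fˣ | a ∉ fieldCore F ∧ 4 < (normGroup a).index}

theorem result {F : Type*} [Field F] (h2 : (2 : F) ≠ 0) (hfin : FinSq F) :
    -- the elements `a` of `E` with `E ⊄ N(a)C` have norm groups of index eight and lie in `F₄`
    ((∀ a ∈ E F, ∀ b ∈ E F, b ∉ normGroup a ⊔ fieldCore F →
      (normGroup a).index ≤ 8 ∧ a ∈ F4 F) → ∃ S : QData, Elem S ∧ IsStructureOf F S) ∧
    -- special case: norm groups of index at most eight outside the core, and `F₄ = F*`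
    ((∀ a : Fˣ, a ∉ fieldCore F → (normGroup a).index ≤ 8) → F4 F = ⊤ →
      ∃ S : QData, Elem S ∧ IsStructureOf F S) ∧
    -- special case: the algebras `(a,b)`, `a, b ∈ E`, are split up to the core
    ((∀ a ∈ E F, ∀ b ∈ E F, b ∈ normGroup a ⊔ fieldCore F) →
      ∃ S : QData, Elem S ∧ IsStructureOf F S) := by
  have main : (∀ a ∈ E F, ∀ b ∈ E F, b ∉ normGroup a ⊔ fieldCore F →
      (normGroup a).index ≤ 8 ∧ a ∈ F4 F) → ∃ S : QData, Elem S ∧ IsStructureOf F S := by
    intro hE
    obtain ⟨S, hS, hSfin, hSq⟩ := exists_structure h2 hfin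
    obtain ⟨φ, hs, hk, hn, h0, hq⟩ := id hS
    have hz : ∀ a b : Fˣ, S.q (φ a) (φ b) = S.zero ↔ NormFrom a b := by
      intro a b
      rw [← qiso_one h2, ← h0, ← map_one φ]
      exact hq a b 1 1
    have hcore := core_comap h2 hs hk hSfin hz
    have hD : ∀ a : Fˣ, (D hSq (φ a)).comap φ = normGroup a := by
      intro a
      ext c
      exact hz a c
    have hidx : ∀ a : Fˣ, (D hSq (φ a)).index = (normGroup a).index := by
      intro a
      rw [← hD a, Subgroup.index_comap_of_surjective _ hs]
    have hmem : ∀ a : Fˣ, φ a ∈ Core S ↔ a ∈ fieldCore F := by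
      intro a
      rw [hcore]
      exact Iff.rfl
    refine ⟨S, Pool.Agent.R19.QS.elem_bad hSq ?_, hS⟩
    intro e f he hf hei hfi hef
    obtain ⟨a, rfl⟩ := hs e
    obtain ⟨b, rfl⟩ := hs f
    rw [hidx] at hei hfi
    have h3 := hE a ⟨fun hc => he ((hmem a).2 hc), hei⟩ b ⟨fun hc => hf ((hmem b).2 hc), hfi⟩ (by
      intro hb
      apply hef
      obtain ⟨u, hu, v, hv, e⟩ := Subgroup.mem_sup.1 hb
      rw [← e, map_mul]
      refine Subgroup.mul_mem _ (Subgroup.mem_sup_left ?_)
        (Subgroup.mem_sup_right ((hmem v).2 hv))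
      rw [← hD a] at hu
      exact hu)
    rw [hidx]
    refine ⟨h3.1, ?_⟩
    have h4 : F4 F ≤ (Subgroup.closure ({y : S.G | (D hSq y).index ≤ 4} ∪
        (Core S : Set S.G))).comap φ := by
      rw [F4, Subgroup.closure_le]
      rintro c (hc | hc)
      · refine Subgroup.subset_closure (Or.inl ?_)
        show (D hSq (φ c)).index ≤ 4
        rw [hidx c]
        exact hc
      · exact Subgroup.subset_closure (Or.inr ((hmem c).2 hc))
    exact h4 h3.2
  refine ⟨main, fun h8 hG => main fun a ha _ _ _ => ⟨h8 a ha.1, ?_⟩, fun h1 => main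
    fun a ha b hb hab => absurd (h1 a ha b hb) hab⟩
  rw [hG]
  trivial

end Pool.Agent.Results.MP_2429c0_al.IndexEight
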